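import Pool.Agent.helper52.EU.SpecK
import Pool.Agent.helper72.BP.PF3

/-!
# Row `eu:KCB` (MP_ad8ced_nt): two cells
-/

set_option autoImplicit false

open Finset

namespace Pool.Agent.EU

open Pool.Agent.FI Pool.Agent.HK Pool.Agent.BP Pool.Agent.YB
open Pool.Agent.CH (nit rgh)

private theorem KCB_xi (q : ℕ) (ξ : ℤ × ℤ → ℂ) (h : IsX q ξ) (z : ℤ × ℤ) : ‖ξ z‖ ≤ 1 := by
  by_cases hz : Nat.Coprime (nn z) q
  · exact (h.2.2.2.2.2 z hz).le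
  · rw [h.2.2.2.2.1 z hz]
    simp

private theorem KCB_s1 (z : ℤ × ℤ) (i : ℕ) : ‖s1 z ^ i‖ ≤ 1 := by
  rw [norm_pow]
  refine pow_le_one₀ (norm_nonneg _) ?_
  unfold s1
  split_ifs <;> simp

private theorem KCB_sg (z : ℤ × ℤ) (i : ℕ) : ‖((N8 z).sign : ℂ) ^ i‖ ≤ 1 := by
  rw [norm_pow]
  refine pow_le_one₀ (norm_nonneg _) ?_
  rcases lt_trichotomy (N8 z) 0 with h | h | h
  · rw [Int.sign_eq_neg_one_of_neg h]; simp
  · rw [h]; simp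
  · rw [Int.sign_eq_one_of_pos h]; simp

private theorem KCB_mul3 (a b c : ℂ) (ha : ‖a‖ ≤ 1) (hb : ‖b‖ ≤ 1) (hc : ‖c‖ ≤ 1) : ‖a * b * c‖ ≤ 1 := by
  rw [norm_mul, norm_mul]
  exact mul_le_one₀ (mul_le_one₀ ha (norm_nonneg _) hb) (norm_nonneg _) hc

private theorem KCB_HX (q : ℕ) (ξ : ℤ × ℤ → ℂ) (h : IsX q ξ) (i₁ i : ℕ) (κ : ℝ) (z : ℤ × ℤ) : ‖HX ξ i₁ i κ z‖ ≤ 1 := by
  unfold HX
  rw [norm_mul]
  refine mul_le_one₀ (KCB_mul3 _ _ _ (KCB_xi q ξ h z) (KCB_s1 z i₁) (KCB_sg z i)) (norm_nonneg _) ?_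
  have e : (κ : ℂ) * (yy z : ℂ) * Complex.I = ((κ * yy z : ℝ) : ℂ) * Complex.I := by push_cast; ring
  rw [e, Complex.norm_exp_ofReal_mul_I]

/-- the family `HX * nit` -/
private theorem KCB_fam (hUHX : UHX_stmt) (x q B : ℕ) (ξ : ℤ × ℤ → ℂ) (i₁ i : ℕ) (α t : ℝ) (h : Dta x q B ξ i₁ i α) :
    FamX α (fun m z => HX ξ i₁ i (fr α m) z * nit t (nn z))
      (fun z => ξ z * s1 z ^ i₁ * ((N8 z).sign : ℂ) ^ i * nit t (nn z)) := by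
  obtain ⟨hξ, hq, hi₁, hi, hα0, hα, hinv⟩ := h
  refine ⟨fun m => ?_, fun z => ?_, fun m z _ => ?_⟩
  · have h := hUHX.1 q ξ i₁ i (fr α m) hξ (hinv m)
    refine ⟨?_, ?_⟩
    · intro z w hz hw
      show HX ξ i₁ i (fr α m) (mul8 z w) * nit t (nn (mul8 z w)) =
        (HX ξ i₁ i (fr α m) z * nit t (nn z)) * (HX ξ i₁ i (fr α m) w * nit t (nn w))
      rw [h.1 z w hz hw, PF3_nn, PF3_nit t _ _ (PF3_odd z hz) (PF3_odd w hw)]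
      ring
    · intro u hu
      show HX ξ i₁ i (fr α m) u * nit t (nn u) = 1
      rw [h.2.1 u hu]
      have h1 : nn u = 1 := by
        unfold nn
        rw [hu]
        rfl
      rw [h1]
      unfold nit
      simp
  · show ‖ξ z * s1 z ^ i₁ * ((N8 z).sign : ℂ) ^ i * nit t (nn z)‖ ≤ 1
    rw [norm_mul, PF3_nit_norm, mul_one]
    exact KCB_mul3 _ _ _ (KCB_xi q ξ hξ z) (KCB_s1 z i₁) (KCB_sg z i)
  · show HX ξ i₁ i (fr α m) z * nit t (nn z) = _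
    unfold HX
    push_cast
    ring

private theorem KCB_sh (w Ψ : ℤ × ℤ → ℂ) (t : ℝ) (a b : ℕ) :
    Sh w Ψ t a b = ∑ z ∈ FF b, (if a < nn z then w z else 0) * (Ψ z * nit t (nn z)) := by
  unfold Sh
  rw [Finset.sum_filter]
  refine sum_congr rfl fun z _ => ?_
  split_ifs <;> simp

private theorem KCB_mem (hSIZ : SIZ_stmt) (u : ℕ) (z : ℤ × ℤ) : z ∈ FF u ↔ Fd z ∧ nn z ≤ u := by
  classical
  unfold FF
  rw [mem_filter]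
  refine ⟨fun h => h.2, fun h => ⟨?_, h⟩⟩
  have h1 := (hSIZ z h.1).2.2.2.1
  unfold FF at h1
  have h2 := (mem_filter.1 h1).1
  have h3 : (nn z : ℤ) ≤ u := by exact_mod_cast h.2
  rw [mem_product, mem_Icc, mem_Icc] at h2 ⊢
  obtain ⟨⟨h4, h5⟩, h6, h7⟩ := h2
  refine ⟨⟨by linarith, by linarith⟩, by linarith, by linarith⟩

private theorem KCB_cut (hSIZ : SIZ_stmt) (w Ψ : ℤ × ℤ → ℂ) (t : ℝ) (a b V : ℕ) :
    Sh (ct V w) Ψ t a b = Sh w Ψ t a (min b V) := by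
  classical
  unfold Sh ct
  have h1 : ∀ z ∈ (FF b).filter (fun z => a < nn z), (if nn z ≤ V then w z else 0) * (Ψ z * nit t (nn z)) =
      if nn z ≤ V then w z * (Ψ z * nit t (nn z)) else 0 := by
    intro z _
    split_ifs <;> simp
  rw [sum_congr rfl h1, ← Finset.sum_filter, Finset.filter_filter]
  refine sum_congr ?_ fun _ _ => rfl
  ext z
  rw [mem_filter, mem_filter, KCB_mem hSIZ, KCB_mem hSIZ, le_min_iff]
  tauto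

private theorem KCB_zero (w Ψ : ℤ × ℤ → ℂ) (t : ℝ) (a b : ℕ) (h : ∀ z ∈ FF b, a < nn z → w z = 0) : Sh w Ψ t a b = 0 := by
  unfold Sh
  refine sum_eq_zero fun z hz => ?_
  rw [mem_filter] at hz
  rw [h z hz.1 hz.2, zero_mul]

private theorem KCB_triv (hFFC : FFC_stmt) (w Ψ : ℤ × ℤ → ℂ) (t W : ℝ) (a b : ℕ) (hW : 0 ≤ W)
    (hw : ∀ z ∈ FF b, ‖w z‖ ≤ W) (hΨ : ∀ z, ‖Ψ z‖ ≤ 1) : ‖Sh w Ψ t a b‖ ≤ 25 * b * W := by
  unfold Sh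
  refine (norm_sum_le _ _).trans ?_
  have h1 : ∀ z ∈ (FF b).filter (fun z => a < nn z), ‖w z * (Ψ z * nit t (nn z))‖ ≤ W := by
    intro z hz
    rw [mem_filter] at hz
    rw [norm_mul, norm_mul, PF3_nit_norm, mul_one]
    calc ‖w z‖ * ‖Ψ z‖ ≤ W * 1 := mul_le_mul (hw z hz.1) (hΨ z) (norm_nonneg _) hW
      _ = W := mul_one _
  refine (sum_le_card_nsmul _ _ _ h1).trans ?_
  rw [nsmul_eq_mul]
  refine mul_le_mul_of_nonneg_right ?_ hW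
  refine le_trans ?_ (hFFC b).1
  exact_mod_cast card_filter_le _ _

/-- the mean value of one cell -/
private theorem KCB_mv (hPMX : PMX_stmt) : ∃ (C : ℝ) (E : ℕ), 0 < C ∧ ∀ (α : ℝ) (H : ℤ → ℤ × ℤ → ℂ) (t : ℝ) (c : ℤ × ℤ → ℂ),
    FamX α (fun m z => H m z * nit t (nn z)) c → ∀ (M₁ : ℕ) (V : ℝ) (w : ℤ × ℤ → ℂ) (a b : ℕ), 1 ≤ M₁ → 1 ≤ V → (∀ z, ‖w z‖ ≤ V) → 1 ≤ b →
    ∑ m ∈ Icc (-(M₁ : ℤ)) M₁, ‖Sh w (H m) t a b‖ ^ 2 ≤ C * V ^ 2 * (M₁ + b) * b * (1 + Real.log b) ^ E := by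
  obtain ⟨C, E, hC, h⟩ := hPMX 1
  refine ⟨C, E, hC, ?_⟩
  intro α H t c hF M₁ V w a b hM₁ hV hw hb
  have h1 := h α _ c hF M₁ V (fun _ z => if a < nn z then w z else 0) (fun _ => b) hM₁ hV ?_ (fun _ => hb)
  · simp only [Finset.univ_unique, Finset.prod_singleton, mul_one] at h1
    refine le_trans (le_of_eq ?_) h1
    refine sum_congr rfl fun m _ => ?_
    rw [KCB_sh]
  · intro _ z
    show ‖if a < nn z then w z else 0‖ ≤ V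
    split_ifs
    · exact hw z
    · simp; linarith

private theorem KCB_wm (Z : ℝ) (z : ℤ × ℤ) : ‖wm Z z‖ ≤ 1 := by
  unfold wm
  split_ifs
  · rw [Complex.norm_real]
    exact PF3_mue z
  · simp

private theorem KCB_ctm (V : ℕ) (Z : ℝ) (z : ℤ × ℤ) : ‖ct V (wm Z) z‖ ≤ 1 := by
  unfold ct
  split_ifs
  · exact KCB_wm Z z
  · simp

private theorem KCB_ctl (U : ℕ) (Z W : ℝ) (hW : 0 ≤ W) (hU : 1 ≤ U → Real.log U ≤ W) (z : ℤ × ℤ) : ‖ct U (wl Z) z‖ ≤ W := by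
  unfold ct wl
  split_ifs with h1 h2
  · rw [Complex.norm_real]
    have h3 : 1 ≤ nn z := h2.1.one_lt.le
    have h4 : (1 : ℝ) ≤ nn z := by exact_mod_cast h3
    rw [Real.norm_of_nonneg (Real.log_nonneg h4)]
    refine (Real.log_le_log (by linarith) ?_).trans (hU (h3.trans h1))
    exact_mod_cast h1
  · simpa using hW
  · simpa using hW

private theorem KCB_fin (L K₀ N : ℝ) (A E : ℕ) (hL : 1 ≤ L) (hK : K₀ ≤ L) :
    K₀ * N ^ 2 * L ^ (E + 2) / (L ^ (A + E + 3)) ^ 2 ≤ N ^ 2 / L ^ A := by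
  have hL0 : 0 < L := by linarith
  rw [div_le_div_iff₀ (by positivity) (by positivity)]
  have h1 : K₀ * L ^ (E + 2) * L ^ A ≤ (L ^ (A + E + 3)) ^ 2 := by
    calc K₀ * L ^ (E + 2) * L ^ A ≤ L * L ^ (E + 2) * L ^ A := by gcongr
      _ = L ^ (A + E + 3) := by ring
      _ ≤ (L ^ (A + E + 3)) ^ 2 := by
        have h2 : 1 ≤ L ^ (A + E + 3) := one_le_pow₀ hL
        nlinarith
  calc K₀ * N ^ 2 * L ^ (E + 2) * L ^ A = N ^ 2 * (K₀ * L ^ (E + 2) * L ^ A) := by ring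
    _ ≤ N ^ 2 * (L ^ (A + E + 3)) ^ 2 := mul_le_mul_of_nonneg_left h1 (sq_nonneg _)

private theorem KCB_lep : 1 ≤ lep := by
  unfold lep
  rw [Real.le_log_iff_exp_le (by positivity)]
  have h1 := Real.exp_one_lt_d9
  have h2 : 0 ≤ √(8 : ℝ) := Real.sqrt_nonneg _
  linarith

private theorem KCB_fr0 (α : ℝ) (m : ℤ) (h0 : 0 ≤ α) (h1 : α < 2 * Real.pi) (h : fr α m = 0) : m = 0 := by
  have hl := KCB_lep
  have hp := Real.pi_pos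
  unfold fr at h
  rw [div_eq_zero_iff] at h
  have h2 : α + 2 * Real.pi * m = 0 := by
    rcases h with h | h
    · exact h
    · linarith
  have h3 : (m : ℝ) ≤ 0 := by
    by_contra h4
    push Not at h4
    nlinarith [mul_pos hp h4]
  have h4 : (-1 : ℝ) < m := by
    by_contra h5
    push Not at h5
    nlinarith
  have h5 : m ≤ 0 := by exact_mod_cast h3
  have h6 : -1 < m := by exact_mod_cast h4
  omega

private theorem KCB_frb (α : ℝ) (m : ℤ) (M₁ : ℕ) (h0 : 0 ≤ α) (h1 : α < 2 * Real.pi) (hM : 1 ≤ M₁)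
    (hm : m ∈ Icc (-(M₁ : ℤ)) M₁) : |fr α m| ≤ 8 * M₁ := by
  have hl := KCB_lep
  have hp := Real.pi_pos
  have hp4 := Real.pi_lt_four
  have hM' : (1 : ℝ) ≤ M₁ := by exact_mod_cast hM
  rw [mem_Icc] at hm
  have hm1 : -(M₁ : ℝ) ≤ m := by exact_mod_cast hm.1
  have hm2 : (m : ℝ) ≤ M₁ := by exact_mod_cast hm.2
  unfold fr
  rw [abs_div, abs_of_pos (by linarith : (0 : ℝ) < 2 * lep), div_le_iff₀ (by linarith)]
  have h2 : |α + 2 * Real.pi * m| ≤ 16 * M₁ := by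
    rw [abs_le]
    constructor <;> nlinarith
  refine h2.trans ?_
  nlinarith

theorem KCB (hSUM : SUM_stmt) (hSUP : SUP_stmt) (hPMX : PMX_stmt) (hUHX : UHX_stmt) (hFFC : FFC_stmt) (hSIZ : SIZ_stmt) : KCB_stmt := by
  intro η δ hη hη1 hδ A B C₀ hC₀
  obtain ⟨C, E, hC, hMV⟩ := KCB_mv hPMX
  obtain ⟨x₁, hx₁⟩ := hSUM (A + E + 3) B 4 C₀ (δ / 2) (half_pos hδ)
  obtain ⟨x₂, hx₂⟩ := hSUP (A + E + 3) B 4 (δ / 2) (half_pos hδ)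
  obtain ⟨K₀, hK₀⟩ : ∃ K₀ : ℝ, K₀ = 45000 * C * 4 ^ E + 14062500 := ⟨_, rfl⟩
  have hlog : Filter.Tendsto (fun x : ℕ => Real.log (x : ℝ)) Filter.atTop Filter.atTop :=
    Real.tendsto_log_atTop.comp tendsto_natCast_atTop_atTop
  have hpd : Filter.Tendsto (fun x : ℕ => (x : ℝ) ^ (δ / 2)) Filter.atTop Filter.atTop :=
    (tendsto_rpow_atTop (half_pos hδ)).comp tendsto_natCast_atTop_atTop
  have hpe : Filter.Tendsto (fun x : ℕ => (x : ℝ) ^ η) Filter.atTop Filter.atTop :=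
    (tendsto_rpow_atTop hη).comp tendsto_natCast_atTop_atTop
  have hpl : ∀ᶠ x : ℕ in Filter.atTop, Real.log (x : ℝ) ^ C₀ ≤ (x : ℝ) ^ (δ / 2) := by
    have h1 : ∀ᶠ y : ℝ in Filter.atTop, Real.log y ^ C₀ ≤ y ^ (δ / 2) := by
      have h2 := (isLittleO_log_rpow_rpow_atTop (C₀ : ℝ) (half_pos hδ)).bound (c := 1) one_pos
      filter_upwards [h2, Filter.eventually_ge_atTop 1] with y hy h3
      rw [Real.rpow_natCast, one_mul, Real.norm_of_nonneg (pow_nonneg (Real.log_nonneg h3) _),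
        Real.norm_of_nonneg (Real.rpow_nonneg (by linarith) _)] at hy
      exact hy
    exact tendsto_natCast_atTop_atTop.eventually h1
  obtain ⟨x₀, hx₀⟩ := Filter.eventually_atTop.1 ((hlog.eventually_ge_atTop 1).and ((hlog.eventually_ge_atTop K₀).and
    ((hpd.eventually_ge_atTop 512).and ((hpe.eventually_ge_atTop 8).and (hpl.and ((Filter.eventually_ge_atTop 16).and
    ((Filter.eventually_ge_atTop x₁).and (Filter.eventually_ge_atTop x₂))))))))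
  refine ⟨x₀, ?_⟩
  intro x hx q ξ i₁ i α t Z N M₁ U V hDta hZ8 hZ hM₁ hMN hNx hUN hVN ht a₁ b₁ a₂ b₂ a₃ b₃ hc₁ hc₂ hc₃ hN8 hN2
  obtain ⟨hL1, hLK, hxd, hxe, hlC, hx16, hxx₁, hxx₂⟩ := hx₀ x hx
  obtain ⟨L, hLdef⟩ : ∃ L, L = Real.log (x : ℝ) := ⟨_, rfl⟩
  rw [← hLdef] at hL1 hLK hlC hZ
  rw [← hLdef]
  have hDta' := hDta
  obtain ⟨hξ, hqB, hi₁, hi, hα0, hα, hinv⟩ := hDta
  have hx1 : (16 : ℝ) ≤ x := by exact_mod_cast hx16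
  have hM1 : (1 : ℝ) ≤ M₁ := by exact_mod_cast hM₁
  have hM1s : (1 : ℝ) ≤ (M₁ : ℝ) ^ 2 := one_le_pow₀ hM1
  have hNx' : (N : ℝ) ≤ (x : ℝ) ^ 2 := by exact_mod_cast hNx
  have hMN8 : 8 * (M₁ : ℝ) ^ 2 ≤ N := by
    refine le_trans ?_ hMN
    nlinarith
  have hN1 : (8 : ℝ) ≤ N := by linarith
  have hN1' : 1 ≤ N := by
    have : (1 : ℝ) ≤ N := by linarith
    exact_mod_cast this
  have hMx : (M₁ : ℝ) ≤ x := by
    nlinarith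
  -- bounds for the frequencies and for `t`
  have hfrb : ∀ m ∈ Icc (-(M₁ : ℤ)) M₁, |fr α m| ≤ (x : ℝ) ^ 4 := by
    intro m hm
    refine (KCB_frb α m M₁ hα0 hα hM₁ hm).trans ?_
    have h1 : (16 : ℝ) ^ 3 ≤ (x : ℝ) ^ 3 := by gcongr
    calc 8 * (M₁ : ℝ) ≤ 8 * x := by linarith
      _ ≤ (x : ℝ) ^ 3 * x := by nlinarith
      _ = (x : ℝ) ^ 4 := by ring
  have htb : |t| ≤ (x : ℝ) ^ 4 := by
    refine ht.trans ?_
    have h1 : (x : ℝ) ^ (η / 3) ≤ x := by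
      calc (x : ℝ) ^ (η / 3) ≤ (x : ℝ) ^ (1 : ℝ) := Real.rpow_le_rpow_of_exponent_le (by linarith) (by linarith)
        _ = x := Real.rpow_one _
    calc (M₁ : ℝ) ^ 2 * (x : ℝ) ^ (η / 3) ≤ (x : ℝ) ^ 2 * x := by gcongr
      _ ≤ (x : ℝ) ^ 2 * x * x := by
        have : (0 : ℝ) ≤ (x : ℝ) ^ 2 * x := by positivity
        nlinarith
      _ = (x : ℝ) ^ 4 := by ring
  -- zero cases
  have hzero : ∀ (S₁ S₂ S₃ : ℤ → ℂ), ((∀ m, S₁ m = 0) ∨ (∀ m, S₂ m = 0) ∨ (∀ m, S₃ m = 0)) →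
      ∑ m ∈ Icc (-(M₁ : ℤ)) M₁, ‖S₁ m‖ ^ 2 * ‖S₂ m‖ ^ 2 * ‖S₃ m‖ ^ 2 ≤ (N : ℝ) ^ 2 / L ^ A := by
    intro S₁ S₂ S₃ h
    have h1 : ∑ m ∈ Icc (-(M₁ : ℤ)) M₁, ‖S₁ m‖ ^ 2 * ‖S₂ m‖ ^ 2 * ‖S₃ m‖ ^ 2 = 0 := by
      refine sum_eq_zero fun m _ => ?_
      rcases h with h | h | h <;> simp [h m]
    rw [h1]
    positivity
  -- the third cell
  by_cases ha₃ : a₃ = 0
  swap
  · refine hzero _ _ _ (Or.inr (Or.inr fun m => KCB_zero _ _ _ _ _ fun z _ hz => ?_))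
    unfold wu
    rw [if_neg]
    omega
  have hb₃ : b₃ = 1 := by
    obtain ⟨h1, h2⟩ := hc₃
    omega
  subst ha₃ hb₃
  rw [mul_one] at hN8 hN2
  -- the first cell
  by_cases hUa : U ≤ a₁
  · refine hzero _ _ _ (Or.inl fun m => KCB_zero _ _ _ _ _ fun z _ hz => ?_)
    unfold ct
    rw [if_neg]
    omega
  push Not at hUa
  by_cases hb₁1 : b₁ = 1
  · subst hb₁1
    refine hzero _ _ _ (Or.inl fun m => KCB_zero _ _ _ _ _ fun z hz _ => ?_)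
    have hn : nn z ≤ 1 := ((KCB_mem hSIZ 1 z).1 hz).2
    have hwl : wl Z z = 0 := by
      unfold wl
      rw [if_neg]
      rintro ⟨h1, _⟩
      have := h1.one_lt
      omega
    unfold ct
    rw [hwl, ite_self]
  have hb₁ : b₁ ≤ 2 * a₁ := by
    obtain ⟨h1, h2⟩ := hc₁
    omega
  have hab₁ : a₁ < b₁ := hc₁.1
  have hab₂ : a₂ < b₂ := hc₂.1
  -- the second cell
  by_cases hVa : V ≤ a₂
  · refine hzero _ _ _ (Or.inr (Or.inl fun m => KCB_zero _ _ _ _ _ fun z _ hz => ?_))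
    unfold ct
    rw [if_neg]
    omega
  push Not at hVa
  have hN8' : (N : ℝ) ≤ 8 * (b₁ * b₂) := by exact_mod_cast hN8
  have hN2' : (b₁ : ℝ) * b₂ ≤ 2 * N := by exact_mod_cast hN2
  have hxdd : (x : ℝ) ^ δ = (x : ℝ) ^ (δ / 2) * (x : ℝ) ^ (δ / 2) := by
    rw [← Real.rpow_add (by linarith)]
    congr 1
    ring
  have hxd32 : 512 * (x : ℝ) ^ (δ / 2) ≤ (x : ℝ) ^ δ := by
    rw [hxdd]
    nlinarith
  have hU0 : (0 : ℝ) < U := by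
    have : 0 < U := by omega
    exact_mod_cast this
  have hV0 : (0 : ℝ) < V := by
    have : 0 < V := by omega
    exact_mod_cast this
  have hb₁U : (b₁ : ℝ) ≤ 2 * U := by
    have : b₁ ≤ 2 * U := by omega
    exact_mod_cast this
  have hxb₂ : (x : ℝ) ^ δ ≤ 16 * b₂ := by
    have h1 : (U : ℝ) * (x : ℝ) ^ δ ≤ U * (16 * b₂) := by
      calc (U : ℝ) * (x : ℝ) ^ δ ≤ N := hUN
        _ ≤ 8 * (b₁ * b₂) := hN8'
        _ ≤ 8 * (2 * U * b₂) := by gcongr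
        _ = U * (16 * b₂) := by ring
    exact le_of_mul_le_mul_left h1 hU0
  have hb₂1 : b₂ ≠ 1 := by
    rintro rfl
    norm_num at hxb₂
    linarith
  have hb₂ : b₂ ≤ 2 * a₂ := by
    obtain ⟨h1, h2⟩ := hc₂
    omega
  have hb₂V : (b₂ : ℝ) ≤ 2 * V := by
    have : b₂ ≤ 2 * V := by omega
    exact_mod_cast this
  have hxb₁ : (x : ℝ) ^ δ ≤ 16 * b₁ := by
    have h1 : (V : ℝ) * (x : ℝ) ^ δ ≤ V * (16 * b₁) := by
      calc (V : ℝ) * (x : ℝ) ^ δ ≤ N := hVN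
        _ ≤ 8 * (b₁ * b₂) := hN8'
        _ ≤ 8 * (b₁ * (2 * V)) := by gcongr
        _ = V * (16 * b₁) := by ring
    exact le_of_mul_le_mul_left h1 hV0
  have hb₁' : (b₁ : ℝ) ≤ 2 * a₁ := by exact_mod_cast hb₁
  have hb₂' : (b₂ : ℝ) ≤ 2 * a₂ := by exact_mod_cast hb₂
  have hxa₁ : (x : ℝ) ^ (δ / 2) ≤ a₁ := by linarith
  have hxa₂ : (x : ℝ) ^ (δ / 2) ≤ a₂ := by linarith
  have hb₁0 : (0 : ℝ) < b₁ := by
    have : 0 < b₁ := by omega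
    exact_mod_cast this
  have hb₂0 : (0 : ℝ) < b₂ := by
    have : 0 < b₂ := by omega
    exact_mod_cast this
  have ha₁b : (a₁ : ℝ) ≤ b₁ := by exact_mod_cast hab₁.le
  have ha₂b : (a₂ : ℝ) ≤ b₂ := by exact_mod_cast hab₂.le
  have hb₂1' : (1 : ℝ) ≤ b₂ := by
    have : 1 ≤ b₂ := by omega
    exact_mod_cast this
  have hb₁1' : (1 : ℝ) ≤ b₁ := by
    have : 1 ≤ b₁ := by omega
    exact_mod_cast this
  have hb₁N : (b₁ : ℝ) ≤ 2 * N := by nlinarith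
  have hb₂N : (b₂ : ℝ) ≤ 2 * N := by nlinarith
  have hx4 : (2 : ℝ) * N ≤ (x : ℝ) ^ 4 := by
    calc (2 : ℝ) * N ≤ 2 * (x : ℝ) ^ 2 := by linarith
      _ ≤ (x : ℝ) ^ 2 * (x : ℝ) ^ 2 := by
        have : (16 : ℝ) ^ 2 ≤ (x : ℝ) ^ 2 := by gcongr
        nlinarith
      _ = (x : ℝ) ^ 4 := by ring
  have hb₁x : b₁ ≤ x ^ 4 := by
    have : (b₁ : ℝ) ≤ (x : ℝ) ^ 4 := by linarith
    exact_mod_cast this
  have hb₂x : b₂ ≤ x ^ 4 := by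
    have : (b₂ : ℝ) ≤ (x : ℝ) ^ 4 := by linarith
    exact_mod_cast this
  have hlogb : ∀ b : ℝ, 1 ≤ b → b ≤ 2 * N → Real.log b ≤ 3 * L := by
    intro b h1 h2
    have h3 : b ≤ (x : ℝ) ^ 3 := by
      calc b ≤ 2 * N := h2
        _ ≤ 2 * (x : ℝ) ^ 2 := by linarith
        _ ≤ (x : ℝ) * (x : ℝ) ^ 2 := by
          have : (0 : ℝ) < (x : ℝ) ^ 2 := by positivity
          nlinarith
        _ = (x : ℝ) ^ 3 := by ring
    have h4 := Real.log_le_log (by linarith) h3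
    rw [Real.log_pow] at h4
    rw [hLdef]
    exact_mod_cast h4
  have hL0 : 0 < L := by linarith
  obtain ⟨LA, hLA⟩ : ∃ LA, LA = L ^ (A + E + 3) := ⟨_, rfl⟩
  have hLA0 : 0 < LA := by rw [hLA]; positivity
  -- the bounds for the single sums
  have hS₃ : ∀ m, ‖Sh wu (HX ξ i₁ i (fr α m)) t 0 1‖ ≤ 25 := by
    intro m
    have h1 := KCB_triv hFFC wu (HX ξ i₁ i (fr α m)) t 1 0 1 zero_le_one (fun z _ => by
      unfold wu; split_ifs <;> simp) (fun z => KCB_HX q ξ hξ i₁ i _ z)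
    simpa using h1
  have hS₂ : ∀ m ∈ Icc (-(M₁ : ℤ)) M₁, ‖Sh (ct V (wm Z)) (HX ξ i₁ i (fr α m)) t a₂ b₂‖ ≤ b₂ / LA := by
    intro m hm
    rw [KCB_cut hSIZ]
    have h1 := hx₁ x hxx₁ q ξ i₁ i (fr α m) t Z a₂ (min b₂ V) hξ hqB hi₁ hi (hinv m) (hfrb m hm) htb hZ8
      (by rw [← hLdef]; exact hZ) hxa₂ (le_min hab₂.le hVa.le) ((min_le_left _ _).trans hb₂) ((min_le_left _ _).trans hb₂x)
    rw [← hLdef, ← hLA] at h1
    refine h1.trans ?_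
    gcongr
  have hS₁ : ∀ m ∈ Icc (-(M₁ : ℤ)) M₁, (fr α m ≠ 0 ∨ NPr q ξ) → ‖Sh (ct U (wl Z)) (HX ξ i₁ i (fr α m)) t a₁ b₁‖ ≤ b₁ / LA := by
    intro m hm hne
    rw [KCB_cut hSIZ]
    have h1 := hx₂ x hxx₂ q ξ i₁ i (fr α m) t Z a₁ (min b₁ U) hξ hqB hi₁ hi (hinv m) (hfrb m hm) htb hne
      (hZ.trans (hlC.trans hxa₁)) hxa₁ (le_min hab₁.le hUa.le) ((min_le_left _ _).trans hb₁) ((min_le_left _ _).trans hb₁x)
    rw [← hLdef, ← hLA] at h1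
    refine h1.trans ?_
    gcongr
  have hctU : ∀ z, ‖ct U (wl Z) z‖ ≤ 3 * L := by
    refine KCB_ctl U Z (3 * L) (by positivity) fun hU1 => hlogb U (by exact_mod_cast hU1) ?_
    have h1 : (U : ℝ) * 1 ≤ U * (x : ℝ) ^ δ := by
      refine mul_le_mul_of_nonneg_left ?_ hU0.le
      linarith
    linarith
  have hS₁t : ∀ m, ‖Sh (ct U (wl Z)) (HX ξ i₁ i (fr α m)) t a₁ b₁‖ ≤ 75 * b₁ * L := by
    intro m
    have h1 := KCB_triv hFFC (ct U (wl Z)) (HX ξ i₁ i (fr α m)) t (3 * L) a₁ b₁ (by positivity) (fun z _ => hctU z)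
      (fun z => KCB_HX q ξ hξ i₁ i _ z)
    refine h1.trans (le_of_eq ?_)
    ring
  have hfam := KCB_fam hUHX x q B ξ i₁ i α t hDta'
  have hlogE : ∀ b : ℝ, 1 ≤ b → b ≤ 2 * N → (1 + Real.log b) ^ E ≤ 4 ^ E * L ^ E := by
    intro b h1 h2
    rw [← mul_pow]
    have h3 := hlogb b h1 h2
    have h4 := Real.log_nonneg h1
    gcongr
    linarith
  have hfinal : K₀ * (N : ℝ) ^ 2 * L ^ (E + 2) / LA ^ 2 ≤ (N : ℝ) ^ 2 / L ^ A := by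
    rw [hLA]
    exact KCB_fin L K₀ N A E hL1 hLK
  refine le_trans ?_ hfinal
  have hbbN : ((b₁ : ℝ) * b₂) ^ 2 ≤ 4 * (N : ℝ) ^ 2 := by
    calc ((b₁ : ℝ) * b₂) ^ 2 ≤ (2 * N : ℝ) ^ 2 := by gcongr
      _ = 4 * (N : ℝ) ^ 2 := by ring
  have hLE : L ^ E ≤ L ^ (E + 2) := pow_le_pow_right₀ hL1 (by omega)
  have hL2 : L ^ 2 ≤ L ^ (E + 2) := pow_le_pow_right₀ hL1 (by omega)
  rcases le_or_gt b₁ b₂ with hle | hlt
  · -- `b₁ ≤ b₂`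
    have hMb₂ : (M₁ : ℝ) ≤ b₂ := by
      have h1 : (b₁ : ℝ) ≤ b₂ := by exact_mod_cast hle
      have h2 : (M₁ : ℝ) ^ 2 ≤ (b₂ : ℝ) ^ 2 := by nlinarith
      exact le_of_sq_le_sq h2 (by linarith)
    have hmv := hMV α (fun m => HX ξ i₁ i (fr α m)) t _ hfam M₁ 1 (ct V (wm Z)) a₂ b₂ hM₁ le_rfl (KCB_ctm V Z) (by omega)
    have hpt : ∀ m ∈ Icc (-(M₁ : ℤ)) M₁, ‖Sh (ct U (wl Z)) (HX ξ i₁ i (fr α m)) t a₁ b₁‖ ^ 2 *
        ‖Sh (ct V (wm Z)) (HX ξ i₁ i (fr α m)) t a₂ b₂‖ ^ 2 * ‖Sh wu (HX ξ i₁ i (fr α m)) t 0 1‖ ^ 2 ≤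
        (b₁ / LA) ^ 2 * ‖Sh (ct V (wm Z)) (HX ξ i₁ i (fr α m)) t a₂ b₂‖ ^ 2 * 25 ^ 2 +
          (if m = 0 then (75 * b₁ * L) ^ 2 * (b₂ / LA) ^ 2 * 25 ^ 2 else 0) := by
      intro m hm
      have h3 := hS₃ m
      have h2 := hS₂ m hm
      by_cases hne : fr α m ≠ 0 ∨ NPr q ξ
      · have h1 := hS₁ m hm hne
        have h4 : ‖Sh (ct U (wl Z)) (HX ξ i₁ i (fr α m)) t a₁ b₁‖ ^ 2 *
            ‖Sh (ct V (wm Z)) (HX ξ i₁ i (fr α m)) t a₂ b₂‖ ^ 2 * ‖Sh wu (HX ξ i₁ i (fr α m)) t 0 1‖ ^ 2 ≤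
            (b₁ / LA) ^ 2 * ‖Sh (ct V (wm Z)) (HX ξ i₁ i (fr α m)) t a₂ b₂‖ ^ 2 * 25 ^ 2 := by gcongr
        have h5 : (0 : ℝ) ≤ (if m = 0 then (75 * b₁ * L) ^ 2 * (b₂ / LA) ^ 2 * 25 ^ 2 else 0) := by
          split_ifs <;> positivity
        linarith
      · push Not at hne
        have hm0 := KCB_fr0 α m hα0 hα hne.1
        rw [if_pos hm0]
        have h1 := hS₁t m
        have h4 : ‖Sh (ct U (wl Z)) (HX ξ i₁ i (fr α m)) t a₁ b₁‖ ^ 2 *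
            ‖Sh (ct V (wm Z)) (HX ξ i₁ i (fr α m)) t a₂ b₂‖ ^ 2 * ‖Sh wu (HX ξ i₁ i (fr α m)) t 0 1‖ ^ 2 ≤
            (75 * b₁ * L) ^ 2 * (b₂ / LA) ^ 2 * 25 ^ 2 := by gcongr
        have h5 : (0 : ℝ) ≤ (b₁ / LA) ^ 2 * ‖Sh (ct V (wm Z)) (HX ξ i₁ i (fr α m)) t a₂ b₂‖ ^ 2 * 25 ^ 2 := by positivity
        linarith
    refine (sum_le_sum hpt).trans ?_
    rw [sum_add_distrib, ← sum_mul, ← mul_sum, sum_ite_eq']
    have h0mem : (0 : ℤ) ∈ Icc (-(M₁ : ℤ)) M₁ := by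
      rw [mem_Icc]
      constructor <;> omega
    rw [if_pos h0mem]
    have h6 : ∑ m ∈ Icc (-(M₁ : ℤ)) M₁, ‖Sh (ct V (wm Z)) (HX ξ i₁ i (fr α m)) t a₂ b₂‖ ^ 2 ≤ 2 * C * (b₂ : ℝ) ^ 2 * (4 ^ E * L ^ E) := by
      refine hmv.trans ?_
      calc C * 1 ^ 2 * (M₁ + b₂) * b₂ * (1 + Real.log b₂) ^ E ≤ C * 1 ^ 2 * (b₂ + b₂) * b₂ * (4 ^ E * L ^ E) := by
            have := hlogE b₂ hb₂1' hb₂N
            gcongr
        _ = 2 * C * (b₂ : ℝ) ^ 2 * (4 ^ E * L ^ E) := by ring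
    calc (b₁ / LA) ^ 2 * (∑ m ∈ Icc (-(M₁ : ℤ)) M₁, ‖Sh (ct V (wm Z)) (HX ξ i₁ i (fr α m)) t a₂ b₂‖ ^ 2) * 25 ^ 2 +
          (75 * b₁ * L) ^ 2 * (b₂ / LA) ^ 2 * 25 ^ 2
        ≤ (b₁ / LA) ^ 2 * (2 * C * (b₂ : ℝ) ^ 2 * (4 ^ E * L ^ E)) * 25 ^ 2 + (75 * b₁ * L) ^ 2 * (b₂ / LA) ^ 2 * 25 ^ 2 := by gcongr
      _ = (1250 * C * 4 ^ E * L ^ E + 3515625 * L ^ 2) * ((b₁ : ℝ) * b₂) ^ 2 / LA ^ 2 := by
          field_simp
          ring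
      _ ≤ (1250 * C * 4 ^ E * L ^ (E + 2) + 3515625 * L ^ (E + 2)) * (4 * (N : ℝ) ^ 2) / LA ^ 2 := by gcongr
      _ = (5000 * C * 4 ^ E + 14062500) * (N : ℝ) ^ 2 * L ^ (E + 2) / LA ^ 2 := by ring
      _ ≤ K₀ * (N : ℝ) ^ 2 * L ^ (E + 2) / LA ^ 2 := by
          have h7 : 5000 * C * 4 ^ E + 14062500 ≤ K₀ := by
            rw [hK₀]
            have : 0 < C * 4 ^ E := by positivity
            linarith
          gcongr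
  · -- `b₂ < b₁`
    have hMb₁ : (M₁ : ℝ) ≤ b₁ := by
      have h1 : (b₂ : ℝ) ≤ b₁ := by exact_mod_cast hlt.le
      have h2 : (M₁ : ℝ) ^ 2 ≤ (b₁ : ℝ) ^ 2 := by nlinarith
      exact le_of_sq_le_sq h2 (by linarith)
    have hmv := hMV α (fun m => HX ξ i₁ i (fr α m)) t _ hfam M₁ (3 * L) (ct U (wl Z)) a₁ b₁ hM₁ (by linarith) hctU (by omega)
    have hpt : ∀ m ∈ Icc (-(M₁ : ℤ)) M₁, ‖Sh (ct U (wl Z)) (HX ξ i₁ i (fr α m)) t a₁ b₁‖ ^ 2 *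
        ‖Sh (ct V (wm Z)) (HX ξ i₁ i (fr α m)) t a₂ b₂‖ ^ 2 * ‖Sh wu (HX ξ i₁ i (fr α m)) t 0 1‖ ^ 2 ≤
        ‖Sh (ct U (wl Z)) (HX ξ i₁ i (fr α m)) t a₁ b₁‖ ^ 2 * (b₂ / LA) ^ 2 * 25 ^ 2 := by
      intro m hm
      have h3 := hS₃ m
      have h2 := hS₂ m hm
      gcongr
    refine (sum_le_sum hpt).trans ?_
    rw [← sum_mul, ← sum_mul]
    have h6 : ∑ m ∈ Icc (-(M₁ : ℤ)) M₁, ‖Sh (ct U (wl Z)) (HX ξ i₁ i (fr α m)) t a₁ b₁‖ ^ 2 ≤ 18 * C * L ^ 2 * (b₁ : ℝ) ^ 2 * (4 ^ E * L ^ E) := by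
      refine hmv.trans ?_
      calc C * (3 * L) ^ 2 * (M₁ + b₁) * b₁ * (1 + Real.log b₁) ^ E ≤ C * (3 * L) ^ 2 * (b₁ + b₁) * b₁ * (4 ^ E * L ^ E) := by
            have := hlogE b₁ hb₁1' hb₁N
            gcongr
        _ = 18 * C * L ^ 2 * (b₁ : ℝ) ^ 2 * (4 ^ E * L ^ E) := by ring
    calc (∑ m ∈ Icc (-(M₁ : ℤ)) M₁, ‖Sh (ct U (wl Z)) (HX ξ i₁ i (fr α m)) t a₁ b₁‖ ^ 2) * (b₂ / LA) ^ 2 * 25 ^ 2
        ≤ (18 * C * L ^ 2 * (b₁ : ℝ) ^ 2 * (4 ^ E * L ^ E)) * (b₂ / LA) ^ 2 * 25 ^ 2 := by gcongr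
      _ = 11250 * C * 4 ^ E * L ^ (E + 2) * ((b₁ : ℝ) * b₂) ^ 2 / LA ^ 2 := by
          rw [pow_add]
          field_simp
          ring
      _ ≤ 11250 * C * 4 ^ E * L ^ (E + 2) * (4 * (N : ℝ) ^ 2) / LA ^ 2 := by gcongr
      _ = (45000 * C * 4 ^ E) * (N : ℝ) ^ 2 * L ^ (E + 2) / LA ^ 2 := by ring
      _ ≤ K₀ * (N : ℝ) ^ 2 * L ^ (E + 2) / LA ^ 2 := by
          have h7 : 45000 * C * 4 ^ E ≤ K₀ := by
            rw [hK₀]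
            linarith
          gcongr

end Pool.Agent.EU
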